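import Pool.Agent.H78.OX.Targets

/-!
# CLX: the classification of the strings
-/

set_option autoImplicit false

namespace Pool.Agent.H91.OX

open Finset Filter Pool.Agent.H6.NB Pool.Agent.H70.OQ Pool.Agent.H70.EH Pool.Agent.H78.XQ
  Pool.Agent.H78.OX

/-- injectivity of the positions of a block -/
theorem bx_inj (hCOD : Pool.Agent.H6.NB.T_COD) (s : List Bool)
    (i i' : Fin (2 ^ (2 * s.length))) (v v' : VV (qs s)) (h : bx s i v = bx s i' v') :
    i = i' ∧ v = v' := by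
  unfold bx pos at h
  have h2 := (List.cons.inj (List.cons.inj h).2).2
  obtain ⟨-, b, c⟩ := hCOD.1 _ _ _ _ _ _ h2
  obtain ⟨e1, e2⟩ := List.append_inj b (by rw [List.length_ofFn, List.length_ofFn])
  have e3 : i = i' := (eu (2 * s.length)).injective (List.ofFn_injective e1)
  have e4 : v.2 = v'.2 := List.ofFn_injective e2
  have e5 : v.1 = v'.1 := by
    revert c
    cases v.1 <;> cases v'.1 <;> simp
  exact ⟨e3, Prod.ext e5 e4⟩

/-- injectivity of the positions of a correction string -/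
theorem wx_inj (hCOD : Pool.Agent.H6.NB.T_COD) (s : List Bool)
    (z z' : Fin (wlx s) → Bool) (h : wx s z = wx s z') : z = z' := by
  unfold wx wps at h
  have h2 := (List.cons.inj (List.cons.inj h).2).2
  obtain ⟨-, b, -⟩ := hCOD.1 _ _ _ _ _ _ h2
  exact List.ofFn_injective b

theorem clx_ (hNST : Pool.Agent.H70.OQ.T_NST) (hCOD : Pool.Agent.H6.NB.T_COD) (hLNX : T_LNX) :
    Pool.Agent.H78.OX.T_CLX := by
  obtain ⟨-, -, -, l4, l5, l6, l7, l8, l9, l10, l11, l12⟩ := hLNX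
  intro J n a o
  have c1 : ∀ p : Nn n J, clx J n a o (false :: nstr n J p) = .bas (.inl p) := by
    intro p
    unfold clx
    have h : ∃ q : Nn n J, false :: nstr n J p = false :: nstr n J q := ⟨p, rfl⟩
    rw [dif_pos h]
    have e1 := (hNST n J).2.1 _ _ (List.cons.inj h.choose_spec).2
    rw [← e1]
  have c2 : ∀ s : Om n a, clx J n a o (key s.1) = .key s := by
    intro s
    unfold clx
    rw [dif_neg, dif_pos (⟨s, rfl⟩ : ∃ s' : Om n a, key s.1 = key s'.1)]
    · have h : ∃ s' : Om n a, key s.1 = key s'.1 := ⟨s, rfl⟩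
      have e := l9 _ _ h.choose_spec
      have e' : s = h.choose := Subtype.ext e
      exact congrArg _ e'.symm
    · rintro ⟨p, hp⟩
      exact l6 _ _ hp.symm
  have c3 : ∀ (s : Om n a) (i : Fin (2 ^ (2 * s.1.length))) (v : VV (qs s.1)),
      clx J n a o (bx s.1 i v) = .blk s i v := by
    intro s i v
    unfold clx
    have h : ∃ p : Σ s : Om n a, Fin (2 ^ (2 * s.1.length)) × VV (qs s.1),
        bx s.1 i v = bx p.1.1 p.2.1 p.2.2 := ⟨⟨s, i, v⟩, rfl⟩
    rw [dif_neg, dif_neg, dif_pos h]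
    · have key2 : ∀ p : Σ s : Om n a, Fin (2 ^ (2 * s.1.length)) × VV (qs s.1),
          bx s.1 i v = bx p.1.1 p.2.1 p.2.2 →
          (PosG.blk p.1 p.2.1 p.2.2 : Cgx J n a) = .blk s i v := by
        rintro ⟨s', i', v'⟩ hp
        have e5 : s = s' := Subtype.ext (l10 _ _ _ _ _ _ hp)
        subst e5
        obtain ⟨e6, e8⟩ := bx_inj hCOD _ _ _ _ _ hp
        subst e6
        subst e8
        rfl
      exact key2 h.choose h.choose_spec
    · rintro ⟨p, hp⟩
      exact l4 _ _ _ _ hp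
    · rintro ⟨p, hp⟩
      exact l7 _ _ _ _ hp.symm
  have c4 : ∀ (s : Om n a) (z : Fin (wlx s.1) → Bool),
      clx J n a o (wx s.1 z) = .bas (.inr ⟨s, z⟩) := by
    intro s z
    unfold clx
    have h : ∃ p : Σ s : Om n a, Fin (wlx s.1) → Bool, wx s.1 z = wx p.1.1 p.2 := ⟨⟨s, z⟩, rfl⟩
    rw [dif_neg, dif_neg, dif_neg, dif_pos h]
    · have key2 : ∀ p : Σ s : Om n a, Fin (wlx s.1) → Bool, wx s.1 z = wx p.1.1 p.2 →
          (PosG.bas (.inr p) : Cgx J n a) = .bas (.inr ⟨s, z⟩) := by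
        rintro ⟨s', z'⟩ hp
        have e5 : s = s' := Subtype.ext (l11 _ _ _ _ hp)
        subst e5
        have e6 : z = z' := wx_inj hCOD _ _ _ hp
        subst e6
        rfl
      exact key2 h.choose h.choose_spec
    · rintro ⟨p, hp⟩
      exact l12 _ _ _ _ _ hp.symm
    · rintro ⟨p, hp⟩
      exact l5 _ _ _ hp
    · rintro ⟨p, hp⟩
      exact l8 _ _ _ hp.symm
  refine ⟨c1, c2, c3, c4, ?_⟩
  intro w
  by_cases e1 : ∃ p : Nn n J, w = false :: nstr n J p
  · exact Or.inl e1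
  by_cases e2 : ∃ s : Om n a, w = key s.1
  · exact Or.inr (Or.inl e2)
  by_cases e3 : ∃ (s : Om n a) (i : Fin (2 ^ (2 * s.1.length))) (v : VV (qs s.1)),
      w = bx s.1 i v
  · exact Or.inr (Or.inr (Or.inl e3))
  by_cases e4 : ∃ (s : Om n a) (z : Fin (wlx s.1) → Bool), w = wx s.1 z
  · exact Or.inr (Or.inr (Or.inr (Or.inl e4)))
  refine Or.inr (Or.inr (Or.inr (Or.inr ?_)))
  unfold clx
  rw [dif_neg e1, dif_neg e2, dif_neg, dif_neg]
  · rintro ⟨p, hp⟩
    exact e4 ⟨p.1, p.2, hp⟩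
  · rintro ⟨p, hp⟩
    exact e3 ⟨p.1, p.2.1, p.2.2, hp⟩

end Pool.Agent.H91.OX
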