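import Pool.Agent.H78.OX.Targets

/-!
# SDX: the seed of the stage at other strings
-/

set_option autoImplicit false

namespace Pool.Agent.H91.OX

open Finset Filter Pool.Agent.H6.NB Pool.Agent.H70.OQ Pool.Agent.H70.EH Pool.Agent.H78.XQ
  Pool.Agent.H78.OX

theorem base_len (hNST : Pool.Agent.H70.OQ.T_NST) {k n : ℕ} (p : Nn n k) :
    n ≤ (nstr n k p).length := by
  rw [(hNST n k).1 p]
  refine Nat.le_mul_of_pos_left n ?_
  have : 2 ≤ 2 ^ (k + 1) := by
    calc 2 = 2 ^ 1 := by norm_num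
      _ ≤ 2 ^ (k + 1) := Nat.pow_le_pow_right (by norm_num) (by omega)
  omega

theorem sdx_ (hCLX : Pool.Agent.H78.OX.T_CLX) (hNST : Pool.Agent.H70.OQ.T_NST) (hLNX : T_LNX) : T_SDX := by
  obtain ⟨l1, l2, l3, l4, l5, l6, l7, l8, l9, l10, l11, l12⟩ := hLNX
  intro J n a hn σ₀ T κ P z
  have hnn : n ≤ n ^ 2 := Nat.le_self_pow (by norm_num) n
  refine ⟨fun w hw => ?_, fun w hw => ?_, fun p => ?_⟩
  · unfold sdx
    rcases (hCLX J n (2 ^ a) σ₀).2.2.2.2 w with ⟨p, h⟩ | ⟨s', h⟩ | ⟨s', i, v, h⟩ | ⟨s', y, h⟩ | h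
    · exfalso
      have := base_len hNST p
      rw [h] at hw
      simp only [List.length_cons] at hw
      omega
    · exfalso
      have h3 := s'.2.1
      have h4 := l1 s'.1
      rw [h] at hw
      omega
    · exfalso
      have h3 := s'.2.1
      have h4 := l2 s'.1 i v
      rw [h] at hw
      omega
    · exfalso
      have h3 := s'.2.1
      have h4 := l3 s'.1 y
      rw [h] at hw
      omega
    · rw [h]; rfl
  · unfold sdx
    rcases (hCLX J n (2 ^ a) σ₀).2.2.2.2 (false :: w) with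
      ⟨p, h⟩ | ⟨s', h⟩ | ⟨s', i, v, h⟩ | ⟨s', y, h⟩ | h
    · exfalso
      have h1 : w = nstr n J p := (List.cons.inj h).2
      have h2 := (hNST n J).1 p
      rw [← h1] at h2
      exact hw h2
    · exact absurd h (l6 _ _)
    · exact absurd h (l7 _ _ _ _)
    · exact absurd h (l8 _ _ _)
    · rw [h]; rfl
  · unfold sdx
    rw [(hCLX J n (2 ^ a) σ₀).1 p]
    rfl

end Pool.Agent.H91.OX
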